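import Pool.Agent.H30R2.BC.LV2

set_option autoImplicit false

/-! # P versus NP over the complex numbers: long intermediate results are unavoidable

The systems `y_i ^ 2 = y_i` (`i < k`), `∑ 2 ^ i y_i = z` of `k + 1` equations in `k` unknowns are
solvable over `ℂ` if and only if `z` is one of the integers `0, ..., 2 ^ k - 1`. Consider
(randomized) computation trees over `ℂ` with the operations `+`, `-`, `×`, arbitrary integer
constants and tests for zero, which decide the solvability of these systems for natural numbers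
`z` with error `ε` and with at most `T` tests. Then for `m ≥ 2` a run on a random solvable system
computes an integer `v` with `2 ^ m |v| ≥ m!` with probability at least
`1 - 2 ε - 2 (m - 1) T / 2 ^ k`. -/

namespace Pool.Agent.Results.MP_641cb6_lc.LongIntegers

open Pool.Agent.H30R2.BC

theorem result (k m T : ℕ) (hm : 2 ≤ m) (Ω : Type) [Fintype Ω]
    (t : Ω → Pool.Agent.H30R2.BC.Tree (Fin (k + 1) × (Fin k →₀ ℕ)))
    (hdf : ∀ ω, (t ω).DivFree) (ε : ℝ)
    (hT : ∀ ω, ∀ z : ℕ, (t ω).tests (coeffs (sys ℚ k z)) ≤ T)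
    (hE : ∀ z : ℕ, (1 - ε) * Nat.card Ω ≤ Nat.card {ω //
      (t ω).accepts (coeffs (sys ℂ k z)) = true ↔ Solvable (sys ℂ k z)}) :
    (1 - 2 * ε) * 2 ^ k * Nat.card Ω - 2 * (m - 1) * T * Nat.card Ω ≤
      Nat.card {q : Ω × Fin (2 ^ k) //
        (t q.1).Computes (fun v : ℚ => (m.factorial : ℚ) ≤ 2 ^ m * |v|)
          (coeffs (sys ℚ k ((q.2 : ℕ) : ℚ)))} :=
  lv_main k m T hm Ω t hdf ε hT hE

end Pool.Agent.Results.MP_641cb6_lc.LongIntegers
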