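import Pool.Agent.H695R3.OPT.Main

/-!
# Second-order points, local minimisers and attainment for real quartics are as hard as `NP_ℝ`

Polynomials over a ring `R` are lists of terms, a term is a coefficient with the list of its
variables (`Pol R`).  `pfn n p` is the function on `ℝ ^ n` given by `p`, `Deg d n p` says that all
terms of `p` have degree at most `d` and variables less than `n`, `Solv n S` that the equations
`q = 0`, `q ∈ S`, have a common solution in `ℝ ^ n`.  `Attains f`: `f` has a global minimiser;
`HasLocMin f`: `f` has a local minimiser; `HasSOP f`: there is a point at which all directional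
derivatives vanish and all second directional derivatives are nonnegative (a second-order point:
vanishing gradient, positive semidefinite Hessian matrix).

* `quart S` is the quartic `(X₀ X₁ - 1)² + ∑ Q(X₀, X₂, X₃, …)²`, a sum of squares of quadratic
  polynomials, `Q` runs through the homogenisations of the polynomials of `S` with the
  homogenising variable `X₀`.
* `sopSys n p` is the system: the partial derivatives of `p` vanish and
  `∂ᵢ∂ⱼ p + ∂ⱼ∂ᵢ p = 2 (C Cᵀ)ᵢⱼ` with `n²` new variables `C`.
* `Inst`, `ifn`, `IsDeg`: instances with integer coefficients (dimension in unary), their functions,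
  correct instances of degree at most `d`.  `InfZero P`: `P` has degree at most four and its function
  is nonnegative with infimum `0`.

All definitions are in `Pool/Agent/H695R3/OPT/Defs.lean` (`InfZero` in `Assembly.lean`).

Idea.  If `z` is a critical point of `F = quart S`, differentiate along the direction `z` with the
sign of the coordinate `1` reversed: the product `X₀ X₁` is stationary and `∑ Q²` is homogeneous
of degree four, so `∑ Q(z)² = 0`.  If `z₀ ≠ 0`, dehomogenisation gives a solution of `S`.  If
`z₀ = 0`, the derivative in the direction `e₀` is `-2 z₁`, so `z₁ = 0`, and then the second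
derivative in the direction `e₀ + K e₁` is `-4 K + O(1)`, negative for large `K`: there is no
second-order point with `z₀ = 0`.  The infimum of `F` is always `0`.

The proofs of the parts (`Pool/Agent/H695R3/OPT`) were written by helpers of the team.
-/

namespace Pool.Agent.Results.MP_641cb6_lc.QuarticOptima

open Pool.Agent.NPC Pool.Agent.NPC.ER Pool.Agent.NPC.H695OPT

/-- **Main theorem.**
(1) Real quadratic systems `S` and the quartic `quart S`.
(2) Second-order points of quartics as solutions of a system.
(3) Instances with integer coefficients: existence of second-order points is `∃ℝ`-complete,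
existence of local minimisers, attainment and everything between attainment and second-order points
are `∃ℝ`-hard. -/
theorem result :
    (∀ (n : ℕ) (S : List (Pol ℝ)), (∀ q ∈ S, Deg 2 n q) →
      Deg 4 (n + 2) (quart S) ∧ (quart S).length = 3 + (S.map fun q => q.length ^ 2).sum ∧
      (∀ z, 0 ≤ pfn (n + 2) (quart S) z) ∧
      (∀ ε : ℝ, 0 < ε → ∃ z, pfn (n + 2) (quart S) z < ε) ∧
      List.TFAE [Solv n S, ∃ z, pfn (n + 2) (quart S) z = 0, Attains (pfn (n + 2) (quart S)),
        HasLocMin (pfn (n + 2) (quart S)), HasSOP (pfn (n + 2) (quart S))]) ∧
    (∀ (n : ℕ) (p : Pol ℝ), Deg 4 n p → (∀ q ∈ sopSys n p, Deg 3 (n + n * n) q) ∧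
      (HasSOP (pfn n p) ↔ Solv (n + n * n) (sopSys n p))) ∧
    (ERComplete (lang fun P : Inst => IsDeg 4 P ∧ HasSOP (ifn P)) ∧
      ERHard (lang fun P : Inst => IsDeg 4 P ∧ HasLocMin (ifn P)) ∧
      ERHard (lang fun P : Inst => IsDeg 4 P ∧ Attains (ifn P)) ∧
      ∀ Q : Inst → Prop, (∀ P, InfZero P → Attains (ifn P) → Q P) →
        (∀ P, InfZero P → Q P → HasSOP (ifn P)) → H612.ERHardWithin InfZero Q) :=
  ⟨main_quartic, main_sop, sop_complete, locMin_hard, attains_hard, between⟩

end Pool.Agent.Results.MP_641cb6_lc.QuarticOptima
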